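import Mathlib

/-!
# Counting lemmas for the choice of the scale (MP_7d29a1_pr, quantitative form, section 8)
-/

namespace Pool.Agent.W_7d29a1_q16

open Finset

/-- points which are the right end of an interval on which `v` grows faster than `ρ` -/
def Fast (v : ℕ → ℝ) (ρ : ℝ) (j : ℕ) : Prop := ∃ i, i < j ∧ ρ * ((j : ℝ) - i) < v j - v i

open Classical in
/-- the number of fast points is at most (total increase) / `ρ` -/
theorem count_fast {v : ℕ → ℝ} (hv : Monotone v) {ρ : ℝ} (hρ : 0 < ρ) (J : ℕ) :
    ρ * ((range (J + 1)).filter (Fast v ρ)).card ≤ v J - v 0 := by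
  induction J using Nat.strong_induction_on with
  | _ J ih =>
    by_cases hJ : Fast v ρ J
    · obtain ⟨i, hi, hi2⟩ := hJ
      have h1 := ih i hi
      have h2 : ((range (J + 1)).filter (Fast v ρ)).card ≤
          ((range (i + 1)).filter (Fast v ρ)).card + (J - i) := by
        have h3 : (range (J + 1)).filter (Fast v ρ) ⊆
            (range (i + 1)).filter (Fast v ρ) ∪ Finset.Ioc i J := by
          intro x hx
          rw [mem_filter, mem_range] at hx
          rw [mem_union, mem_filter, mem_range, mem_Ioc]
          by_cases hxi : x < i + 1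
          · exact Or.inl ⟨hxi, hx.2⟩
          · exact Or.inr ⟨by omega, by omega⟩
        calc _ ≤ _ := card_le_card h3
          _ ≤ _ := card_union_le _ _
          _ = _ := by rw [Nat.card_Ioc]
      have h3 : (((range (J + 1)).filter (Fast v ρ)).card : ℝ) ≤
          ((range (i + 1)).filter (Fast v ρ)).card + ((J : ℝ) - i) := by
        have h4 : ((J - i : ℕ) : ℝ) = (J : ℝ) - i := by
          rw [Nat.cast_sub hi.le]
        rw [← h4]
        exact_mod_cast h2
      have h5 := mul_le_mul_of_nonneg_left h3 hρ.le
      rw [mul_add] at h5
      linarith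
    · rcases Nat.eq_zero_or_pos J with rfl | h0
      · have h1 : (range (0 + 1)).filter (Fast v ρ) = ∅ := by
          rw [filter_eq_empty_iff]
          intro x hx
          rw [mem_range] at hx
          obtain rfl : x = 0 := by omega
          exact hJ
        rw [h1]
        simp
      · have h1 := ih (J - 1) (by omega)
        have h2 : (range (J + 1)).filter (Fast v ρ) = (range (J - 1 + 1)).filter (Fast v ρ) := by
          ext x
          simp only [mem_filter, mem_range]
          constructor
          · rintro ⟨hx, hx2⟩
            refine ⟨?_, hx2⟩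
            rcases Nat.lt_or_ge x J with h | h
            · omega
            · obtain rfl : x = J := by omega
              exact absurd hx2 hJ
          · rintro ⟨hx, hx2⟩
            exact ⟨by omega, hx2⟩
        rw [h2]
        have h3 := hv (show J - 1 ≤ J by omega)
        linarith

open Classical in
/-- the number of bad points less than `j` -/
noncomputable def cnt (B : Set ℕ) (j : ℕ) : ℕ := ((range j).filter (· ∈ B)).card

lemma cnt_mono (B : Set ℕ) : Monotone (cnt B) := by
  classical
  intro i j hij
  unfold cnt
  exact card_le_card (filter_subset_filter _ (range_subset_range.2 hij))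

/-- `k` is hyperbolic: in every interval `[i, k)` at most half of the points are bad -/
def Hyp (B : Set ℕ) (k : ℕ) : Prop := ∀ i, i < k → 2 * ((cnt B k : ℝ) - cnt B i) ≤ (k : ℝ) - i

open Classical in
/-- few points are not hyperbolic -/
theorem count_hyp (B : Set ℕ) (J : ℕ) :
    ((range (J + 1)).filter (fun k => ¬ Hyp B k)).card ≤ 2 * cnt B J := by
  have hm : Monotone (fun j => (cnt B j : ℝ)) := fun i j hij => Nat.cast_le.2 (cnt_mono B hij)
  have h1 := count_fast hm (ρ := 1 / 2) (by norm_num) J
  have h2 : (range (J + 1)).filter (fun k => ¬ Hyp B k) =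
      (range (J + 1)).filter (Fast (fun j => (cnt B j : ℝ)) (1 / 2)) := by
    apply filter_congr
    intro k _
    unfold Hyp Fast
    push Not
    refine exists_congr fun i => and_congr_right fun _ => ?_
    constructor
    · intro h; linarith
    · intro h; linarith
  rw [h2]
  have h3 : (cnt B 0 : ℝ) = 0 := by
    unfold cnt
    simp
  rw [h3] at h1
  have h4 : (((range (J + 1)).filter (Fast (fun j => (cnt B j : ℝ)) (1 / 2))).card : ℝ) ≤
      2 * cnt B J := by linarith
  exact_mod_cast h4

/-- telescoping over windows of length `w` -/
theorem sum_window {v : ℕ → ℝ} (hv : Monotone v) (w J : ℕ) :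
    ∑ k ∈ range J, (v (k + w) - v k) ≤ w * (v (J + w) - v 0) := by
  induction w with
  | zero => simp
  | succ w ih =>
    have h1 : ∑ k ∈ range J, (v (k + (w + 1)) - v k) =
        ∑ k ∈ range J, (v (k + w) - v k) + ∑ k ∈ range J, (v (k + w + 1) - v (k + w)) := by
      rw [← sum_add_distrib]
      apply sum_congr rfl
      intro k _
      rw [show k + (w + 1) = k + w + 1 by omega]
      ring
    have h2 : ∑ k ∈ range J, (v (k + w + 1) - v (k + w)) = v (J + w) - v w := by
      have := sum_range_sub (fun k => v (k + w)) J
      simp only [Nat.zero_add] at this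
      rw [← this]
      apply sum_congr rfl
      intro k _
      rw [show k + 1 + w = k + w + 1 by omega]
    rw [h1, h2]
    have h3 : v (J + w) ≤ v (J + (w + 1)) := hv (by omega)
    have h4 : v 0 ≤ v w := hv (Nat.zero_le _)
    have h5 : v 0 ≤ v (J + w) := hv (Nat.zero_le _)
    push_cast
    nlinarith [mul_le_mul_of_nonneg_left h3 (Nat.cast_nonneg (α := ℝ) w)]

open Classical in
/-- few windows of length `w` have an increase of more than `η` -/
theorem count_window {v : ℕ → ℝ} (hv : Monotone v) (w J : ℕ) {η : ℝ} :
    η * ((range J).filter (fun k => η < v (k + w) - v k)).card ≤ w * (v (J + w) - v 0) := by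
  have h1 := sum_window hv w J
  refine le_trans ?_ h1
  have h2 : ∑ k ∈ (range J).filter (fun k => η < v (k + w) - v k), η ≤
      ∑ k ∈ (range J).filter (fun k => η < v (k + w) - v k), (v (k + w) - v k) := by
    apply sum_le_sum
    intro k hk
    exact (mem_filter.1 hk).2.le
  have h3 : ∑ k ∈ (range J).filter (fun k => η < v (k + w) - v k), (v (k + w) - v k) ≤
      ∑ k ∈ range J, (v (k + w) - v k) := by
    apply sum_le_sum_of_subset_of_nonneg (filter_subset _ _)
    intro k _ _
    have := hv (show k ≤ k + w by omega)
    linarith
  rw [sum_const, nsmul_eq_mul, mul_comm] at h2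
  linarith

end Pool.Agent.W_7d29a1_q16
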