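import Pool.Agent.W_7d29a1_q16.ScaleA

/-!
# Choice of the scale (MP_7d29a1_pr, quantitative form, section 8): a good level exists
-/

namespace Pool.Agent.W_7d29a1_q16

open Finset

variable {A : ℕ} {p : ℝ → ℝ} {a0 am del : ℝ} {Jm : ℕ}

lemma Sb.vv_le (S : Sb A p a0 am) (hJ : max a0 ((A : ℝ) ^ Jm) ≤ am) (i : ℕ) :
    vv A p a0 Jm i ≤ vv A p a0 Jm Jm := by
  rcases Nat.lt_or_ge Jm i with h | h
  · unfold vv
    rw [min_eq_right h.le, min_self]
  · exact S.vv_mono hJ h

open Classical in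
/-- **a good level exists** if there are many levels -/
theorem Sb.exists_k (S : Sb A p a0 am) (hJ : max a0 ((A : ℝ) ^ Jm) ≤ am) (h0 : 0 < del) (l i0 i1 K0 K1 : ℕ)
    {ηA : ℝ} (hη : 0 < ηA) (hK0 : i0 ≤ K0)
    (hcount : ((i0 : ℝ) + i1 + 2 + 2 * (i0 + 1)) * ((l + 2) * (vv A p a0 Jm Jm - vv A p a0 Jm 0) / del) +
      (i0 + i1 + l) * (vv A p a0 Jm Jm - vv A p a0 Jm 0) / ηA < (K1 : ℝ) - K0) :
    ∃ k, K0 ≤ k ∧ k < K1 ∧ (∀ j, k - i0 ≤ j → j ≤ k + i1 + 1 → j ∉ Bd A p a0 Jm del l) ∧
      (∀ k', k - i0 ≤ k' → k' ≤ k → Hyp (Bd A p a0 Jm del l) k') ∧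
      vv A p a0 Jm (k + i1 + l) - vv A p a0 Jm (k - i0) ≤ ηA := by
  by_contra hcon
  push Not at hcon
  set B := Bd A p a0 Jm del l with hB
  set v := vv A p a0 Jm with hv
  set D := v Jm - v 0 with hD
  have hvm : Monotone v := S.vv_mono hJ
  have hD0 : 0 ≤ D := by
    have := hvm (Nat.zero_le Jm)
    linarith
  set E1 := (range (i0 + i1 + 2)).biUnion fun t => (Ico K0 K1).filter fun k => k - i0 + t ∈ B with hE1
  set E2 := (range (i0 + 1)).biUnion fun t => (Ico K0 K1).filter fun k => ¬ Hyp B (k - i0 + t) with hE2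
  set E3 := (Ico K0 K1).filter fun k => ηA < v (k + i1 + l) - v (k - i0) with hE3
  have hsub : Ico K0 K1 ⊆ E1 ∪ (E2 ∪ E3) := by
    intro k hk
    have hk' := mem_Ico.1 hk
    rw [mem_union, mem_union]
    by_cases h1 : ∀ j, k - i0 ≤ j → j ≤ k + i1 + 1 → j ∉ B
    · by_cases h2 : ∀ k', k - i0 ≤ k' → k' ≤ k → Hyp B k'
      · right; right
        exact mem_filter.2 ⟨hk, hcon k hk'.1 hk'.2 h1 h2⟩
      · right; left
        push Not at h2
        obtain ⟨k', h3, h4, h5⟩ := h2
        rw [hE2, mem_biUnion]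
        refine ⟨k' - (k - i0), mem_range.2 (by omega), mem_filter.2 ⟨hk, ?_⟩⟩
        rw [show k - i0 + (k' - (k - i0)) = k' by omega]
        exact h5
    · left
      push Not at h1
      obtain ⟨j, h3, h4, h5⟩ := h1
      rw [hE1, mem_biUnion]
      refine ⟨j - (k - i0), mem_range.2 (by omega), mem_filter.2 ⟨hk, ?_⟩⟩
      rw [show k - i0 + (j - (k - i0)) = j by omega]
      exact h5
  have hinj : ∀ t : ℕ, Set.InjOn (fun k : ℕ => k - i0 + t) (Ico K0 K1 : Finset ℕ) := by
    intro t a ha b hb hab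
    rw [mem_coe, mem_Ico] at ha hb
    have : a - i0 + t = b - i0 + t := hab
    omega
  set C := cnt B (K1 + i1 + 1) with hC
  have c1 : E1.card ≤ (i0 + i1 + 2) * C := by
    calc E1.card ≤ ∑ t ∈ range (i0 + i1 + 2), ((Ico K0 K1).filter fun k => k - i0 + t ∈ B).card :=
          card_biUnion_le
      _ ≤ ∑ t ∈ range (i0 + i1 + 2), C := by
          apply sum_le_sum
          intro t ht
          rw [mem_range] at ht
          rw [hC]
          unfold cnt
          apply card_le_card_of_injOn (fun k => k - i0 + t)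
          · intro k hk
            rw [mem_coe, mem_filter, mem_Ico] at hk
            rw [mem_coe, mem_filter, mem_range]
            exact ⟨show k - i0 + t < K1 + i1 + 1 by omega, hk.2⟩
          · intro a ha b hb hab
            rw [mem_coe, mem_filter] at ha hb
            exact hinj t (mem_coe.2 ha.1) (mem_coe.2 hb.1) hab
      _ = _ := by rw [sum_const, card_range, smul_eq_mul]
  have c2 : E2.card ≤ (i0 + 1) * (2 * C) := by
    calc E2.card ≤ ∑ t ∈ range (i0 + 1), ((Ico K0 K1).filter fun k => ¬ Hyp B (k - i0 + t)).card :=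
          card_biUnion_le
      _ ≤ ∑ t ∈ range (i0 + 1), 2 * C := by
          apply sum_le_sum
          intro t ht
          rw [mem_range] at ht
          have h1 := count_hyp B K1
          have h2 : cnt B K1 ≤ C := cnt_mono B (by omega)
          refine le_trans ?_ (h1.trans (Nat.mul_le_mul_left 2 h2))
          apply card_le_card_of_injOn (fun k => k - i0 + t)
          · intro k hk
            rw [mem_coe, mem_filter, mem_Ico] at hk
            rw [mem_coe, mem_filter, mem_range]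
            exact ⟨show k - i0 + t < K1 + 1 by omega, hk.2⟩
          · intro a ha b hb hab
            rw [mem_coe, mem_filter] at ha hb
            exact hinj t (mem_coe.2 ha.1) (mem_coe.2 hb.1) hab
      _ = _ := by rw [sum_const, card_range, smul_eq_mul]
  have c3 : ηA * E3.card ≤ ((i0 : ℝ) + i1 + l) * D := by
    have h1 := count_window hvm (i0 + i1 + l) K1 (η := ηA)
    have h2 : E3.card ≤ ((range K1).filter (fun k => ηA < v (k + (i0 + i1 + l)) - v k)).card := by
      apply card_le_card_of_injOn (fun k => k - i0 + 0)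
      · intro k hk
        rw [mem_coe, hE3, mem_filter, mem_Ico] at hk
        rw [mem_coe, mem_filter, mem_range]
        refine ⟨show k - i0 + 0 < K1 by omega, ?_⟩
        show ηA < v (k - i0 + 0 + (i0 + i1 + l)) - v (k - i0 + 0)
        rw [Nat.add_zero, show k - i0 + (i0 + i1 + l) = k + i1 + l by omega]
        exact hk.2
      · intro a ha b hb hab
        rw [mem_coe, hE3, mem_filter] at ha hb
        exact hinj 0 (mem_coe.2 ha.1) (mem_coe.2 hb.1) hab
    have h3 : (E3.card : ℝ) ≤ ((range K1).filter (fun k => ηA < v (k + (i0 + i1 + l)) - v k)).card := by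
      exact_mod_cast h2
    have h4 := mul_le_mul_of_nonneg_left h3 hη.le
    have h5 : v (K1 + (i0 + i1 + l)) - v 0 ≤ D := by
      have := S.vv_le hJ (K1 + (i0 + i1 + l))
      linarith
    have h6 : (((i0 + i1 + l : ℕ)) : ℝ) * (v (K1 + (i0 + i1 + l)) - v 0) ≤ ((i0 : ℝ) + i1 + l) * D := by
      push_cast
      exact mul_le_mul_of_nonneg_left h5 (by positivity)
    linarith
  have hcard : K1 - K0 ≤ E1.card + (E2.card + E3.card) := by
    have h1 := card_le_card hsub
    rw [Nat.card_Ico] at h1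
    have h2 := card_union_le E1 (E2 ∪ E3)
    have h3 := card_union_le E2 E3
    omega
  have hcard' : (K1 : ℝ) - K0 ≤ E1.card + (E2.card + E3.card) := by
    have h1 : (K1 : ℝ) ≤ K0 + ((K1 - K0 : ℕ) : ℝ) := by
      exact_mod_cast (show K1 ≤ K0 + (K1 - K0) by omega)
    have h2 : ((K1 - K0 : ℕ) : ℝ) ≤ ((E1.card + (E2.card + E3.card) : ℕ) : ℝ) := by exact_mod_cast hcard
    push_cast at h2
    linarith
  have b1 : (C : ℝ) ≤ (l + 2) * D / del := by
    rw [le_div_iff₀ h0, mul_comm]
    exact S.cnt_bd hJ h0 l (K1 + i1 + 1)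
  have b2 : (E3.card : ℝ) ≤ (i0 + i1 + l) * D / ηA := by
    rw [le_div_iff₀ hη, mul_comm]
    exact c3
  have b3 : (E1.card : ℝ) ≤ (i0 + i1 + 2) * C := by exact_mod_cast c1
  have b4 : (E2.card : ℝ) ≤ (i0 + 1) * (2 * C) := by exact_mod_cast c2
  have b5 : ((i0 : ℝ) + i1 + 2 + 2 * (i0 + 1)) * C ≤
      ((i0 : ℝ) + i1 + 2 + 2 * (i0 + 1)) * ((l + 2) * D / del) :=
    mul_le_mul_of_nonneg_left b1 (by positivity)
  nlinarith

end Pool.Agent.W_7d29a1_q16
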