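import Pool.Agent.W_7d29a1_q.Bas
import Pool.Agent.W_7d29a1_q16.ScaleB

/-!
# Choice of the scale (MP_7d29a1_pr, quantitative form, section 8): growth of `psi`
-/

namespace Pool.Agent.W_7d29a1_q16

open MeasureTheory ProbabilityTheory Filter Topology Pool.Agent.W_MP_7d29a1_pr
  Pool.Agent.W_7d29a1_h46 Pool.Agent.W_7d29a1_h46u Pool.Agent.W_7d29a1_h3 Pool.Agent.W_7d29a1_q

lemma cnt_succ_mem {B : Set ℕ} {k : ℕ} (h : k ∈ B) : cnt B (k + 1) = cnt B k + 1 := by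
  classical
  unfold cnt
  rw [Finset.range_add_one, Finset.filter_insert, if_pos h, Finset.card_insert_of_notMem]
  intro h1
  have := Finset.mem_range.1 (Finset.mem_filter.1 h1).1
  omega

lemma cnt_succ_notMem {B : Set ℕ} {k : ℕ} (h : k ∉ B) : cnt B (k + 1) = cnt B k := by
  classical
  unfold cnt
  rw [Finset.range_add_one, Finset.filter_insert, if_neg h]

lemma cnt_le (B : Set ℕ) {i k : ℕ} (h : i ≤ k) : cnt B k ≤ cnt B i + (k - i) := by
  induction k with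
  | zero =>
    obtain rfl : i = 0 := by omega
    simp
  | succ k ih =>
    rcases Nat.lt_or_ge i (k + 1) with h1 | h1
    · have h2 := ih (by omega)
      by_cases hk : k ∈ B
      · rw [cnt_succ_mem hk]
        omega
      · rw [cnt_succ_notMem hk]
        omega
    · obtain rfl : i = k + 1 := by omega
      simp

/-- multiplicative growth outside a set of bad levels -/
theorem grow_chain {f : ℕ → ℝ} {B : Set ℕ} {r : ℝ} (hr : 1 ≤ r) {i k : ℕ} (hik : i ≤ k)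
    (hf : ∀ j, i ≤ j → j < k → f j ≤ f (j + 1)) (hg : ∀ j, i ≤ j → j < k → j ∉ B → r * f j ≤ f (j + 1)) :
    r ^ (k - i - (cnt B k - cnt B i)) * f i ≤ f k := by
  induction k with
  | zero =>
    obtain rfl : i = 0 := by omega
    simp
  | succ k ih =>
    rcases Nat.lt_or_ge i (k + 1) with h1 | h1
    · have h2 := ih (by omega) (fun j h3 h4 => hf j h3 (by omega)) (fun j h3 h4 => hg j h3 (by omega))
      have h5 := cnt_le B (show i ≤ k by omega)
      have h6 := cnt_mono B (show i ≤ k by omega)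
      by_cases hk : k ∈ B
      · rw [cnt_succ_mem hk]
        have h3 := hf k (by omega) (by omega)
        rw [show k + 1 - i - (cnt B k + 1 - cnt B i) = k - i - (cnt B k - cnt B i) by omega]
        linarith
      · rw [cnt_succ_notMem hk]
        have h3 := hg k (by omega) (by omega) hk
        rw [show k + 1 - i - (cnt B k - cnt B i) = (k - i - (cnt B k - cnt B i)) + 1 by omega, pow_succ,
          mul_comm (r ^ _) r, mul_assoc]
        exact (mul_le_mul_of_nonneg_left h2 (by linarith)).trans h3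
    · obtain rfl : i = k + 1 := by omega
      simp

/-- the bound for `psi` at a hyperbolic level -/
theorem psi_pow {A : ℕ} (hA : 2 ≤ A) {f : ℕ → ℝ} {B : Set ℕ} {i k : ℕ} (hik : i ≤ k) (hB : Hyp B k)
    (hf : ∀ j, k - i ≤ j → j < k → f j ≤ f (j + 1))
    (hg : ∀ j, k - i ≤ j → j < k → j ∉ B → (1 + 1 / (A : ℝ)) * f j ≤ f (j + 1))
    (h0 : 0 ≤ f (k - i)) {M : ℝ} (hM0 : 1 ≤ M) (hM : M < (A : ℝ) ^ (i + 1)) :
    2 * f (k - i) ≤ 3 * M ^ (-e2 A) * f k := by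
  have hA1 : (1 : ℝ) < A := by exact_mod_cast (show 1 < A by omega)
  have hA0 : (0 : ℝ) < A := by linarith
  have hA2 : (2 : ℝ) ≤ A := by exact_mod_cast hA
  have hlA : 0 < Real.log A := Real.log_pos hA1
  have hr : (1 : ℝ) ≤ 1 + 1 / (A : ℝ) := by
    have : 0 < 1 / (A : ℝ) := by positivity
    linarith
  have hr0 : (0 : ℝ) < 1 + 1 / (A : ℝ) := by linarith
  have hr2 : 1 + 1 / (A : ℝ) ≤ 3 / 2 := by
    have : 1 / (A : ℝ) ≤ 1 / 2 := one_div_le_one_div_of_le (by norm_num) hA2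
    linarith
  have hlr : 0 ≤ Real.log (1 + 1 / (A : ℝ)) := Real.log_nonneg hr
  have h1 := grow_chain hr (show k - i ≤ k by omega) hf hg
  set n := k - (k - i) - (cnt B k - cnt B (k - i)) with hn
  -- the exponent is at least `i / 2`
  have hn2 : (i : ℝ) ≤ 2 * n := by
    rcases Nat.eq_zero_or_pos i with h | h
    · rw [h]
      push_cast
      positivity
    · have h2 := hB (k - i) (by omega)
      have h3 := cnt_mono B (show k - i ≤ k by omega)
      have h4 := cnt_le B (show k - i ≤ k by omega)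
      have h5 : (k : ℝ) - ((k - i : ℕ) : ℝ) = i := by
        rw [Nat.cast_sub hik]
        ring
      rw [h5] at h2
      have h6 : 2 * (cnt B k - cnt B (k - i)) ≤ i := by
        have h7 : (((2 * (cnt B k - cnt B (k - i)) : ℕ)) : ℝ) ≤ (i : ℕ) := by
          push_cast
          rw [Nat.cast_sub h3]
          exact h2
        exact_mod_cast h7
      have h8 : i ≤ 2 * n := by omega
      exact_mod_cast h8
  -- compare the powers
  have he2 : e2 A = Real.log (1 + 1 / (A : ℝ)) / (2 * Real.log A) := rfl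
  have he0 : 0 ≤ e2 A := by
    rw [he2]
    positivity
  have hel : e2 A * Real.log A = Real.log (1 + 1 / (A : ℝ)) / 2 := by
    rw [he2]
    field_simp
  have hMe : M ^ (e2 A) ≤ 3 / 2 * (1 + 1 / (A : ℝ)) ^ n := by
    have e1 : M ^ (e2 A) ≤ ((A : ℝ) ^ (i + 1)) ^ (e2 A) :=
      Real.rpow_le_rpow (by linarith) hM.le he0
    have e3 : ((A : ℝ) ^ (i + 1)) ^ (e2 A) = Real.exp (((i : ℝ) + 1) * (Real.log (1 + 1 / (A : ℝ)) / 2)) := by
      rw [Real.rpow_def_of_pos (pow_pos hA0 _), Real.log_pow]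
      push_cast
      congr 1
      rw [← hel]
      ring
    have e4 : Real.exp (((i : ℝ) + 1) * (Real.log (1 + 1 / (A : ℝ)) / 2)) ≤
        Real.exp ((n : ℝ) * Real.log (1 + 1 / (A : ℝ)) + Real.log (1 + 1 / (A : ℝ))) := by
      apply Real.exp_le_exp.2
      nlinarith
    have e5 : Real.exp ((n : ℝ) * Real.log (1 + 1 / (A : ℝ)) + Real.log (1 + 1 / (A : ℝ))) =
        (1 + 1 / (A : ℝ)) ^ n * (1 + 1 / (A : ℝ)) := by
      rw [Real.exp_add, Real.exp_log hr0, ← Real.log_pow, Real.exp_log (pow_pos hr0 _)]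
    have e6 : 0 ≤ (1 + 1 / (A : ℝ)) ^ n := pow_nonneg hr0.le _
    calc M ^ (e2 A) ≤ _ := e1
      _ = _ := e3
      _ ≤ _ := e4
      _ = _ := e5
      _ ≤ (1 + 1 / (A : ℝ)) ^ n * (3 / 2) := mul_le_mul_of_nonneg_left hr2 e6
      _ = _ := by ring
  have hMpos : 0 < M ^ (e2 A) := Real.rpow_pos_of_pos (by linarith) _
  rw [Real.rpow_neg (by linarith)]
  have h9 : M ^ (e2 A) * f (k - i) ≤ 3 / 2 * f k := by
    calc M ^ (e2 A) * f (k - i) ≤ 3 / 2 * (1 + 1 / (A : ℝ)) ^ n * f (k - i) :=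
          mul_le_mul_of_nonneg_right hMe h0
      _ = 3 / 2 * ((1 + 1 / (A : ℝ)) ^ n * f (k - i)) := by ring
      _ ≤ _ := mul_le_mul_of_nonneg_left h1 (by norm_num)
  have h10 : f (k - i) ≤ 3 / 2 * (M ^ (e2 A))⁻¹ * f k := by
    rw [mul_comm (3 / 2 : ℝ), mul_assoc, ← div_eq_inv_mul, le_div_iff₀ hMpos, mul_comm]
    exact h9
  linarith

variable {d : ℕ} {ρ : Measure ℝ} [IsProbabilityMeasure ρ] {β c a0 : ℝ} {N A : ℕ}

/-- consequence of Lemma 7 -/
lemma nn_grow (S : Sc d ρ β c a0 N) {j : ℕ} (ha : (A : ℝ) ^ (j + 1) ≤ am d N)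
    (h : SS d ρ β ((A + 1) * nn d ρ β ((A : ℝ) ^ j)) ≤ A * (A : ℝ) ^ j) :
    (A + 1) * nn d ρ β ((A : ℝ) ^ j) ≤ nn d ρ β ((A : ℝ) ^ (j + 1)) := by
  rw [le_nn S ha]
  right
  rw [pow_succ, mul_comm ((A : ℝ) ^ j) (A : ℝ)]
  exact h

lemma ps_grow (hA : 2 ≤ A) {j : ℕ}
    (h : (A + 1) * nn d ρ β ((A : ℝ) ^ j) ≤ nn d ρ β ((A : ℝ) ^ (j + 1))) :
    (1 + 1 / (A : ℝ)) * ps d ρ β ((A : ℝ) ^ j) ≤ ps d ρ β ((A : ℝ) ^ (j + 1)) := by
  have hA0 : (0 : ℝ) < A := by exact_mod_cast (show 0 < A by omega)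
  unfold ps
  have h1 : ((A : ℝ) + 1) * nn d ρ β ((A : ℝ) ^ j) ≤ nn d ρ β ((A : ℝ) ^ (j + 1)) := by exact_mod_cast h
  have h2 : (1 + 1 / (A : ℝ)) * ((nn d ρ β ((A : ℝ) ^ j) : ℝ) / (A : ℝ) ^ j) =
      ((A : ℝ) + 1) * nn d ρ β ((A : ℝ) ^ j) / (A : ℝ) ^ (j + 1) := by
    rw [pow_succ]
    field_simp
  rw [h2]
  exact div_le_div_of_nonneg_right h1 (pow_pos hA0 _).le

lemma ps_step (j0 : Fin d) (hρ : EM ρ) (S : Sc d ρ β c a0 N) (hA : 2 ≤ A) {j : ℕ}
    (ha : (A : ℝ) ^ (j + 1) ≤ am d N) : ps d ρ β ((A : ℝ) ^ j) ≤ ps d ρ β ((A : ℝ) ^ (j + 1)) := by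
  have hA0 : (0 : ℝ) < A := by exact_mod_cast (show 0 < A by omega)
  have h1 := nn_mul j0 hρ S (pow_pos hA0 j).le A (by rw [mul_comm, ← pow_succ]; exact ha)
  rw [mul_comm (A : ℝ) ((A : ℝ) ^ j), ← pow_succ] at h1
  have h2 : (A : ℝ) * nn d ρ β ((A : ℝ) ^ j) ≤ nn d ρ β ((A : ℝ) ^ (j + 1)) := by exact_mod_cast h1
  unfold ps
  rw [div_le_div_iff₀ (pow_pos hA0 _) (pow_pos hA0 _)]
  calc (nn d ρ β ((A : ℝ) ^ j) : ℝ) * (A : ℝ) ^ (j + 1) = (A : ℝ) * nn d ρ β ((A : ℝ) ^ j) * (A : ℝ) ^ j := by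
        rw [pow_succ]
        ring
    _ ≤ _ := mul_le_mul_of_nonneg_right h2 (pow_pos hA0 _).le

end Pool.Agent.W_7d29a1_q16
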