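import Pool.Agent.W_7d29a1_q16.Sc8A

/-!
# Choice of the scale (MP_7d29a1_pr, quantitative form, section 8): constants
-/

namespace Pool.Agent.W_7d29a1_q16

open MeasureTheory ProbabilityTheory Filter Topology Pool.Agent.W_MP_7d29a1_pr
  Pool.Agent.W_7d29a1_h46 Pool.Agent.W_7d29a1_h46u Pool.Agent.W_7d29a1_h3 Pool.Agent.W_7d29a1_q

lemma e2_pos {A : ℕ} (hA : 2 ≤ A) : 0 < e2 A := by
  have hA1 : (1 : ℝ) < A := by exact_mod_cast (show 1 < A by omega)
  have hlA : 0 < Real.log A := Real.log_pos hA1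
  unfold e2
  apply div_pos _ (by linarith)
  apply Real.log_pos
  have : 0 < 1 / (A : ℝ) := by positivity
  linarith

lemma dl_pos {A : ℕ} (hA : 2 ≤ A) : 0 < dl A := by
  have hA1 : (1 : ℝ) < A := by exact_mod_cast (show 1 < A by omega)
  have h1 : 0 < Real.logb 2 A := Real.logb_pos (by norm_num) hA1
  unfold dl
  refine lt_min (by norm_num) (lt_min (by have := e2_pos hA; linarith) (by positivity))

lemma dl_le {A : ℕ} : dl A ≤ 1 / 4 := min_le_left _ _

lemma pow_dl {A : ℕ} (hA : 2 ≤ A) : (A : ℝ) ^ (2 * dl A) ≤ 2 := by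
  have hA1 : (1 : ℝ) < A := by exact_mod_cast (show 1 < A by omega)
  have h1 : 0 < Real.logb 2 A := Real.logb_pos (by norm_num) hA1
  have h2 : 2 * dl A ≤ 1 / Real.logb 2 A := by
    have h3 : dl A ≤ 1 / (2 * Real.logb 2 A) := (min_le_right _ _).trans (min_le_right _ _)
    calc 2 * dl A ≤ 2 * (1 / (2 * Real.logb 2 A)) := by linarith
      _ = 1 / Real.logb 2 A := by field_simp
  calc (A : ℝ) ^ (2 * dl A) ≤ (A : ℝ) ^ (1 / Real.logb 2 A) :=
        Real.rpow_le_rpow_of_exponent_le hA1.le h2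
    _ = ((2 : ℝ) ^ Real.logb 2 A) ^ (1 / Real.logb 2 A) := by
        rw [Real.rpow_logb (by norm_num) (by norm_num) (by linarith)]
    _ = 2 := by
        rw [← Real.rpow_mul (by norm_num), mul_one_div_cancel h1.ne', Real.rpow_one]

lemma as_tendsto (d : ℕ) : Tendsto (fun N : ℕ => as d N) atTop atTop := by
  unfold as
  exact (tendsto_rpow_atTop (by positivity)).comp tendsto_natCast_atTop_atTop

lemma as_pow (d N : ℕ) : as d N ^ 20 = am d N := by
  unfold as am
  rw [← Real.rpow_natCast, ← Real.rpow_mul (Nat.cast_nonneg _)]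
  congr 1
  push_cast
  field_simp
  norm_num

end Pool.Agent.W_7d29a1_q16
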