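import Pool.Agent.W_7d29a1_q16.Count

/-!
# Choice of the scale (MP_7d29a1_pr, quantitative form, section 8): regular budgets
-/

namespace Pool.Agent.W_7d29a1_q16

open Finset

/-- what is used about the price `p` -/
structure Sb (A : ℕ) (p : ℝ → ℝ) (a0 am : ℝ) : Prop where
  hA : 2 ≤ A
  one : 1 ≤ a0
  pos : ∀ a, a0 ≤ a → a ≤ am → 0 < p a
  anti : ∀ a b, a0 ≤ a → a ≤ b → b ≤ am → p b ≤ p a

variable {A : ℕ} {p : ℝ → ℝ} {a0 am del : ℝ}

lemma Sb.A1 (S : Sb A p a0 am) : (1 : ℝ) < A := by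
  have := S.hA
  exact_mod_cast (show 1 < A by omega)

lemma Sb.A0 (S : Sb A p a0 am) : (0 : ℝ) < A := lt_trans one_pos S.A1

/-- the level of a budget -/
lemma Sb.exists_level (S : Sb A p a0 am) {b : ℝ} (hb : 1 ≤ b) :
    ∃ i : ℕ, (A : ℝ) ^ i ≤ b ∧ b < (A : ℝ) ^ (i + 1) := by
  have hex : ∃ i : ℕ, b < (A : ℝ) ^ (i + 1) := by
    obtain ⟨n, hn⟩ := pow_unbounded_of_one_lt b S.A1
    refine ⟨n, hn.trans_le ?_⟩
    exact pow_le_pow_right₀ S.A1.le (Nat.le_succ n)
  classical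
  refine ⟨Nat.find hex, ?_, Nat.find_spec hex⟩
  rcases Nat.eq_zero_or_pos (Nat.find hex) with h | h
  · rw [h, pow_zero]
    exact hb
  · have h1 := Nat.find_min hex (show Nat.find hex - 1 < Nat.find hex by omega)
    rw [show Nat.find hex - 1 + 1 = Nat.find hex by omega] at h1
    exact not_lt.1 h1

/-- the price at the level `i` -/
noncomputable def qq (A : ℕ) (p : ℝ → ℝ) (a0 : ℝ) (i : ℕ) : ℝ := p (max a0 ((A : ℝ) ^ i))

/-- all budgets below a regular level and above the preceding level are regular -/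
theorem Sb.rg_of_level (S : Sb A p a0 am) (h0 : 0 ≤ del) (hdel : (A : ℝ) ^ (2 * del) ≤ 2) {j : ℕ}
    (hj : max a0 ((A : ℝ) ^ j) ≤ am)
    (hreg : ∀ i, i ≤ j → qq A p a0 i ≤ (A : ℝ) ^ (del * ((j : ℝ) - i)) * qq A p a0 j)
    {a : ℝ} (ha0 : a0 ≤ a) (ha : a ≤ (A : ℝ) ^ j) (ha' : ∀ i, i + 1 ≤ j → (A : ℝ) ^ i ≤ a) :
    ∀ b : ℝ, a0 ≤ b → b ≤ a → p b ≤ 2 * (a / b) ^ del * p a := by
  intro b hb hba
  have hone := S.one
  obtain ⟨i, hi1, hi2⟩ := S.exists_level (hone.trans hb)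
  have hb0 : 0 < b := by linarith
  have ha00 : 0 < a := lt_of_lt_of_le hb0 hba
  have hij : i ≤ j := by
    by_contra hcon
    have h1 : (A : ℝ) ^ (j + 1) ≤ (A : ℝ) ^ i := pow_le_pow_right₀ S.A1.le (show j + 1 ≤ i by omega)
    have h2 : (A : ℝ) ^ j < (A : ℝ) ^ (j + 1) := pow_lt_pow_right₀ S.A1 (Nat.lt_succ_self j)
    linarith
  have hmj : max a0 ((A : ℝ) ^ j) = (A : ℝ) ^ j := max_eq_right (ha0.trans ha)
  have hjm : (A : ℝ) ^ j ≤ am := by rw [hmj] at hj; exact hj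
  have h1 : p b ≤ qq A p a0 i := S.anti _ _ (le_max_left _ _) (max_le hb hi1) (by linarith)
  have h2 := hreg i hij
  have h3 : qq A p a0 j ≤ p a := by
    unfold qq
    rw [hmj]
    exact S.anti _ _ ha0 ha hjm
  have h4 : 0 < qq A p a0 j := S.pos _ (le_max_left _ _) hj
  have hab : 1 ≤ a / b := by rwa [le_div_iff₀ hb0, one_mul]
  have hpa : 0 < p a := lt_of_lt_of_le h4 h3
  have key : (A : ℝ) ^ (del * ((j : ℝ) - i)) ≤ 2 * (a / b) ^ del := by
    rcases Nat.lt_or_ge (i + 1) j with h | h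
    · -- at least two levels apart
      have e1 : (A : ℝ) ^ (del * ((j : ℝ) - i)) =
          (A : ℝ) ^ (2 * del) * ((A : ℝ) ^ (j - i - 2 : ℕ)) ^ del := by
        rw [← Real.rpow_natCast, ← Real.rpow_mul S.A0.le, ← Real.rpow_add S.A0]
        congr 1
        rw [Nat.sub_sub, Nat.cast_sub (show i + 2 ≤ j by omega)]
        push_cast
        ring
      rw [e1]
      have e2 : (A : ℝ) ^ (j - i - 2 : ℕ) ≤ a / b := by
        rw [le_div_iff₀ hb0]
        have e3 := ha' (j - 1) (by omega)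
        have e4 : (A : ℝ) ^ (j - 1) = (A : ℝ) ^ (j - i - 2 : ℕ) * (A : ℝ) ^ (i + 1) := by
          rw [← pow_add]
          congr 1
          omega
        have e5 : (A : ℝ) ^ (j - i - 2 : ℕ) * b ≤ (A : ℝ) ^ (j - i - 2 : ℕ) * (A : ℝ) ^ (i + 1) :=
          mul_le_mul_of_nonneg_left hi2.le (pow_nonneg S.A0.le _)
        linarith
      have e6 : ((A : ℝ) ^ (j - i - 2 : ℕ)) ^ del ≤ (a / b) ^ del :=
        Real.rpow_le_rpow (pow_nonneg S.A0.le _) e2 h0
      have e7 : 0 ≤ ((A : ℝ) ^ (j - i - 2 : ℕ)) ^ del := Real.rpow_nonneg (pow_nonneg S.A0.le _) _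
      calc _ ≤ 2 * ((A : ℝ) ^ (j - i - 2 : ℕ)) ^ del := mul_le_mul_of_nonneg_right hdel e7
        _ ≤ _ := mul_le_mul_of_nonneg_left e6 (by norm_num)
    · have e1 : del * ((j : ℝ) - i) ≤ 2 * del := by
        have : (j : ℝ) ≤ i + 1 := by exact_mod_cast h
        nlinarith
      have e2 : (A : ℝ) ^ (del * ((j : ℝ) - i)) ≤ (A : ℝ) ^ (2 * del) :=
        Real.rpow_le_rpow_of_exponent_le S.A1.le e1
      have e3 : 1 ≤ (a / b) ^ del := Real.one_le_rpow hab h0
      linarith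
  calc p b ≤ qq A p a0 i := h1
    _ ≤ (A : ℝ) ^ (del * ((j : ℝ) - i)) * qq A p a0 j := h2
    _ ≤ (A : ℝ) ^ (del * ((j : ℝ) - i)) * p a :=
        mul_le_mul_of_nonneg_left h3 (Real.rpow_nonneg S.A0.le _)
    _ ≤ 2 * (a / b) ^ del * p a := mul_le_mul_of_nonneg_right key hpa.le

/-- minus the logarithm of the price at the levels `≤ Jm` -/
noncomputable def vv (A : ℕ) (p : ℝ → ℝ) (a0 : ℝ) (Jm i : ℕ) : ℝ :=
  -Real.log (qq A p a0 (min i Jm)) / Real.log A

variable {Jm : ℕ}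

lemma Sb.lA (S : Sb A p a0 am) : 0 < Real.log A := Real.log_pos S.A1

lemma Sb.qq_anti (S : Sb A p a0 am) (hJ : max a0 ((A : ℝ) ^ Jm) ≤ am) {i j : ℕ} (h : i ≤ j) (hj : j ≤ Jm) :
    qq A p a0 j ≤ qq A p a0 i := by
  unfold qq
  refine S.anti _ _ (le_max_left _ _) (max_le_max le_rfl (pow_le_pow_right₀ S.A1.le h)) ?_
  exact (max_le_max le_rfl (pow_le_pow_right₀ S.A1.le hj)).trans hJ

lemma Sb.qq_pos (S : Sb A p a0 am) (hJ : max a0 ((A : ℝ) ^ Jm) ≤ am) {j : ℕ} (hj : j ≤ Jm) :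
    0 < qq A p a0 j :=
  S.pos _ (le_max_left _ _) ((max_le_max le_rfl (pow_le_pow_right₀ S.A1.le hj)).trans hJ)

lemma Sb.vv_mono (S : Sb A p a0 am) (hJ : max a0 ((A : ℝ) ^ Jm) ≤ am) : Monotone (vv A p a0 Jm) := by
  intro i j hij
  unfold vv
  apply div_le_div_of_nonneg_right _ S.lA.le
  apply neg_le_neg
  exact Real.log_le_log (S.qq_pos hJ (min_le_right _ _))
    (S.qq_anti hJ (min_le_min hij le_rfl) (min_le_right _ _))

/-- comparison of two prices by `vv` -/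
lemma Sb.qq_le (S : Sb A p a0 am) (hJ : max a0 ((A : ℝ) ^ Jm) ≤ am) {i j : ℕ} (hi : i ≤ Jm) (hj : j ≤ Jm)
    {x : ℝ} (h : vv A p a0 Jm j - vv A p a0 Jm i ≤ x) : qq A p a0 i ≤ (A : ℝ) ^ x * qq A p a0 j := by
  unfold vv at h
  rw [min_eq_left hi, min_eq_left hj] at h
  have h1 := S.qq_pos hJ hi
  have h2 := S.qq_pos hJ hj
  have h3 := S.lA
  rw [← Real.log_le_log_iff h1 (mul_pos (Real.rpow_pos_of_pos S.A0 _) h2),
    Real.log_mul (Real.rpow_pos_of_pos S.A0 _).ne' h2.ne', Real.log_rpow S.A0]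
  rw [← sub_div, div_le_iff₀ h3] at h
  linarith

/-- the bad levels -/
def Bd (A : ℕ) (p : ℝ → ℝ) (a0 : ℝ) (Jm : ℕ) (del : ℝ) (l : ℕ) : Set ℕ :=
  {j | ∃ s, s ≤ l + 1 ∧ Fast (vv A p a0 Jm) del (j + s)}

/-- the budgets next to a level which is not bad are regular -/
theorem Sb.rg_of_good (S : Sb A p a0 am) (hJ : max a0 ((A : ℝ) ^ Jm) ≤ am) (h0 : 0 ≤ del)
    (hdel : (A : ℝ) ^ (2 * del) ≤ 2) {l j : ℕ} (hj : j ∉ Bd A p a0 Jm del l) (hjm : j + l + 1 ≤ Jm)
    {a : ℝ} (ha0 : a0 ≤ a) (ha1 : (A : ℝ) ^ j ≤ a) (ha2 : a ≤ (A : ℝ) ^ (j + l + 1)) :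
    ∀ b : ℝ, a0 ≤ b → b ≤ a → p b ≤ 2 * (a / b) ^ del * p a := by
  -- the first level which is at least `a`
  classical
  have hex : ∃ s : ℕ, a ≤ (A : ℝ) ^ (j + s) := ⟨l + 1, by rw [← Nat.add_assoc]; exact ha2⟩
  set s := Nat.find hex with hs
  have hs1 : a ≤ (A : ℝ) ^ (j + s) := Nat.find_spec hex
  have hs2 : s ≤ l + 1 := Nat.find_min' hex (by rw [← Nat.add_assoc]; exact ha2)
  have hreg : ¬ Fast (vv A p a0 Jm) del (j + s) := fun h => hj ⟨s, hs2, h⟩
  refine S.rg_of_level h0 hdel (j := j + s) ?_ ?_ ha0 hs1 ?_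
  · exact (max_le_max le_rfl (pow_le_pow_right₀ S.A1.le (by omega))).trans hJ
  · intro i hi
    apply S.qq_le hJ (by omega) (by omega)
    rcases Nat.lt_or_ge i (j + s) with h | h
    · unfold Fast at hreg
      push Not at hreg
      exact hreg i h
    · obtain rfl : i = j + s := by omega
      rw [sub_self, sub_self, mul_zero]
  · intro i hi
    rcases Nat.eq_zero_or_pos s with h | h
    · rw [h] at hi
      exact (pow_le_pow_right₀ S.A1.le (show i ≤ j by omega)).trans ha1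
    · have h1 := Nat.find_min hex (show s - 1 < s by omega)
      rw [not_le] at h1
      exact (pow_le_pow_right₀ S.A1.le (show i ≤ j + (s - 1) by omega)).trans h1.le

open Classical in
/-- there are few bad levels -/
theorem Sb.cnt_bd (S : Sb A p a0 am) (hJ : max a0 ((A : ℝ) ^ Jm) ≤ am) (h0 : 0 < del) (l J : ℕ) :
    del * cnt (Bd A p a0 Jm del l) J ≤ (l + 2) * (vv A p a0 Jm Jm - vv A p a0 Jm 0) := by
  have hv := S.vv_mono hJ
  have h1 := count_fast hv h0 (J + l + 1)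
  have h2 : vv A p a0 Jm (J + l + 1) ≤ vv A p a0 Jm Jm := by
    unfold vv
    rcases Nat.lt_or_ge Jm (J + l + 1) with h | h
    · rw [min_eq_right h.le, min_self]
    · have := hv h
      unfold vv at this
      exact this
  have h3 : cnt (Bd A p a0 Jm del l) J ≤
      (l + 2) * ((range (J + l + 1 + 1)).filter (Fast (vv A p a0 Jm) del)).card := by
    unfold cnt
    calc ((range J).filter (· ∈ Bd A p a0 Jm del l)).card
        ≤ ((range (l + 2)).biUnion fun s =>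
            (range J).filter fun j => Fast (vv A p a0 Jm) del (j + s)).card := by
          apply card_le_card
          intro j hj
          rw [mem_filter] at hj
          obtain ⟨s, hs, hf⟩ := hj.2
          rw [mem_biUnion]
          exact ⟨s, mem_range.2 (by omega), mem_filter.2 ⟨hj.1, hf⟩⟩
      _ ≤ ∑ s ∈ range (l + 2), ((range J).filter fun j => Fast (vv A p a0 Jm) del (j + s)).card :=
          card_biUnion_le
      _ ≤ ∑ s ∈ range (l + 2), ((range (J + l + 1 + 1)).filter (Fast (vv A p a0 Jm) del)).card := by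
          apply sum_le_sum
          intro s hs
          rw [mem_range] at hs
          apply card_le_card_of_injOn (fun j => j + s)
          · intro j hj
            rw [mem_coe, mem_filter, mem_range] at hj ⊢
            exact ⟨show j + s < J + l + 1 + 1 by omega, hj.2⟩
          · intro a _ b _ hab
            simpa using hab
      _ = _ := by rw [sum_const, card_range, smul_eq_mul]
  have h4 : (cnt (Bd A p a0 Jm del l) J : ℝ) ≤
      (l + 2) * ((range (J + l + 1 + 1)).filter (Fast (vv A p a0 Jm) del)).card := by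
    exact_mod_cast h3
  have h5 : (0 : ℝ) ≤ (l : ℝ) + 2 := by positivity
  calc del * cnt (Bd A p a0 Jm del l) J
      ≤ del * ((l + 2) * ((range (J + l + 1 + 1)).filter (Fast (vv A p a0 Jm) del)).card) :=
        mul_le_mul_of_nonneg_left h4 h0.le
    _ = (l + 2) * (del * ((range (J + l + 1 + 1)).filter (Fast (vv A p a0 Jm) del)).card) := by ring
    _ ≤ (l + 2) * (vv A p a0 Jm (J + l + 1) - vv A p a0 Jm 0) := mul_le_mul_of_nonneg_left h1 h5
    _ ≤ _ := mul_le_mul_of_nonneg_left (by linarith) h5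

end Pool.Agent.W_7d29a1_q16
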